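import Pool.Agent.Work.MP_0b08b2_co.K.Full

set_option autoImplicit false

namespace Pool.Agent.Results.MP_0b08b2_co.CoreExtension

/-- There is a constant `g` such that, for every finite simple graph `G` of maximum degree at most 3
and every vertex set `K`, if in `G` minus the edges inside `K` all cycles and all walks between
different vertices of `K` have length at least `g`, then every total 4-colouring of the subgraph
induced on `K` extends to a total 4-colouring of `G`. -/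
theorem result :
    ∃ g : ℕ, ∀ (n : ℕ) (G : SimpleGraph (Fin n)) (K : Set (Fin n)),
      (∀ v, (G.neighborSet v).ncard ≤ 3) →
      (∀ u (p : (G.deleteEdges {e | ∀ x ∈ e, x ∈ K}).Walk u u), p.IsCycle → g ≤ p.length) →
      (∀ u ∈ K, ∀ v ∈ K, u ≠ v →
        ∀ p : (G.deleteEdges {e | ∀ x ∈ e, x ∈ K}).Walk u v, g ≤ p.length) →
      ∀ (f₀ : Fin n → Fin 4) (c₀ : Fin n → Fin n → Fin 4), (∀ u v, c₀ u v = c₀ v u) →
        (∀ u ∈ K, ∀ v ∈ K, G.Adj u v → f₀ u ≠ f₀ v ∧ c₀ u v ≠ f₀ u) →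
        (∀ u ∈ K, ∀ v ∈ K, ∀ w ∈ K, G.Adj u v → G.Adj u w → v ≠ w → c₀ u v ≠ c₀ u w) →
        ∃ (f : Fin n → Fin 4) (c : Fin n → Fin n → Fin 4), (∀ u v, c u v = c v u) ∧
          (∀ u v, G.Adj u v → f u ≠ f v) ∧ (∀ u v, G.Adj u v → c u v ≠ f u) ∧
          (∀ u v w, G.Adj u v → G.Adj u w → v ≠ w → c u v ≠ c u w) ∧
          (∀ u ∈ K, f u = f₀ u) ∧ ∀ u ∈ K, ∀ v ∈ K, G.Adj u v → c u v = c₀ u v := by
  obtain ⟨g, hg⟩ := Pool.Agent.TC.K.ext_full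
  refine ⟨g, fun n G K h1 h2 h3 f₀ c₀ h4 h5 h6 => ?_⟩
  obtain ⟨f, c, ⟨s, p, q, r⟩, k1, k2⟩ := hg (Fin n) G (G.deleteEdges {e | ∀ x ∈ e, x ∈ K}) K
    (fun u v => by simp [SimpleGraph.deleteEdges_adj]) h1 h2 (fun u v a b => h3 u a v b) f₀ c₀
    ⟨h4, fun u v e => (h5 u e.2.1 v e.2.2 e.1).1, fun u v e => (h5 u e.2.1 v e.2.2 e.1).2,
      fun u v w e e' => h6 u e.2.1 v e.2.2 w e'.2.2 e.1 e'.1⟩
  exact ⟨f, c, s, p, q, r, k1, k2⟩

end Pool.Agent.Results.MP_0b08b2_co.CoreExtension
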